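import Pool.Agent.Helper75.CT.ColParity

set_option autoImplicit false

/-!
# CT-1 tlemma
-/

namespace Pool.Agent.Helper17.CT

open Finset

section
variable {H : Type} {k : ℕ} (N : Pole H k)

/-- the third colour -/
private def third (c g : Fin 3) : Fin 3 := -(c + g)

private theorem third_spec : ∀ c g : Fin 3, g ≠ c →
    third c g ≠ c ∧ third c g ≠ g ∧ third c (third c g) = g := by decide

private theorem third_inj : ∀ c g g' : Fin 3, third c g = third c g' → g = g' := by decide

/-- a dart in `O` that is not connected to a port -/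
private theorem exists_far (O : H → Bool) (h : ¬ N.Loopless O) :
    ∃ x, O x = true ∧ ∀ j, O (N.port j) = true → ¬ Conn N.s N.a O x (N.port j) := by
  unfold Pole.Loopless at h
  push Not at h
  exact h

open Classical in
private noncomputable def far (O : H → Bool) (h : ¬ N.Loopless O) : H :=
  (exists_far N O h).choose

private theorem far_spec (O : H → Bool) (h : ¬ N.Loopless O) : O (far N O h) = true ∧
    ∀ j, O (N.port j) = true → ¬ Conn N.s N.a O (far N O h) (N.port j) :=
  (exists_far N O h).choose_spec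

private theorem conn_true {s a : H → H} {O : H → Bool} {x y : H} (hx : O x = true)
    (h : Conn s a O x y) : O y = true := by
  induction h with
  | refl => exact hx
  | tail _ h _ => exact h.2.1

/-- swap the colours on the component of `x0` -/
private noncomputable def swp (c : Fin 3) (x0 : H) (O : H → Bool) (γ : H → Fin 3) (y : H) :
    Fin 3 := by
  classical exact if Conn N.s N.a O x0 y then third c (γ y) else γ y

private theorem swp_ne (c : Fin 3) (x0 : H) (O : H → Bool) (γ : H → Fin 3) (y : H)
    (hx0 : O x0 = true) (hO : ∀ d, O d = decide (γ d ≠ c)) :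
    swp N c x0 O γ y ≠ c ↔ γ y ≠ c := by
  unfold swp
  split_ifs with h
  · have h1 := conn_true hx0 h
    rw [hO] at h1
    have h2 := of_decide_eq_true h1
    exact ⟨fun _ => h2, fun _ => (third_spec c _ h2).1⟩
  · rfl

private theorem swp_swp (c : Fin 3) (x0 : H) (O : H → Bool) (γ : H → Fin 3)
    (hx0 : O x0 = true) (hO : ∀ d, O d = decide (γ d ≠ c)) :
    swp N c x0 O (swp N c x0 O γ) = γ := by
  funext y
  unfold swp
  split_ifs with h
  · have h1 := conn_true hx0 h
    rw [hO] at h1
    exact (third_spec c _ (of_decide_eq_true h1)).2.2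
  · rfl

private theorem swp_ne_self (c : Fin 3) (x0 : H) (O : H → Bool) (γ : H → Fin 3)
    (hx0 : O x0 = true) (hO : ∀ d, O d = decide (γ d ≠ c)) :
    swp N c x0 O γ ≠ γ := by
  intro h
  have h1 := congrFun h x0
  unfold swp at h1
  rw [if_pos (show Conn N.s N.a O x0 x0 from Relation.ReflTransGen.refl)] at h1
  rw [hO] at hx0
  exact (third_spec c _ (of_decide_eq_true hx0)).2.1 h1

private theorem swp_port (c : Fin 3) (x0 : H) (O : H → Bool) (γ : H → Fin 3)
    (hx0 : O x0 = true)
    (hfar : ∀ j, O (N.port j) = true → ¬ Conn N.s N.a O x0 (N.port j)) (j : Fin k) :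
    swp N c x0 O γ (N.port j) = γ (N.port j) := by
  unfold swp
  rw [if_neg]
  intro h
  exact hfar j (conn_true hx0 h) h

private theorem swp_col (c : Fin 3) (x0 : H) (O : H → Bool) (γ : H → Fin 3)
    (hx0 : O x0 = true) (hO : ∀ d, O d = decide (γ d ≠ c)) (h : N.Col γ) :
    N.Col (swp N c x0 O γ) := by
  have hstep : ∀ x y, O x = true → O y = true → (y = N.a x ∨ y = N.s x ∨ y = N.s (N.s x)) →
      Conn N.s N.a O x0 x → Conn N.s N.a O x0 y := fun x y hx hy hxy hc =>
    Relation.ReflTransGen.tail hc ⟨hx, hy, hxy⟩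
  constructor
  · intro d
    have ha : O (N.a d) = O d := by rw [hO, hO, h.acl]
    have hiff : Conn N.s N.a O x0 (N.a d) ↔ Conn N.s N.a O x0 d := by
      constructor
      · intro hc
        have h1 := conn_true hx0 hc
        exact hstep _ _ h1 (ha ▸ h1) (Or.inl (N.a2 d).symm) hc
      · intro hc
        have h1 := conn_true hx0 hc
        exact hstep _ _ h1 (ha.trans h1) (Or.inl rfl) hc
    unfold swp
    by_cases hc : Conn N.s N.a O x0 d
    · rw [if_pos hc, if_pos (hiff.2 hc), h.acl]
    · rw [if_neg hc, if_neg (fun h' => hc (hiff.1 h')), h.acl]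
  · intro d hd
    have hp := h.prop d hd
    by_cases h1 : γ d = c
    · -- then `γ (s d) ≠ c`
      have h2 : γ (N.s d) ≠ c := fun h' => hp (h'.trans h1.symm)
      have h3 := (swp_ne N c x0 O γ (N.s d) hx0 hO).2 h2
      have h4 : swp N c x0 O γ d = c := by
        by_contra h5
        exact (swp_ne N c x0 O γ d hx0 hO).1 h5 h1
      rw [h4]; exact h3
    · by_cases h2 : γ (N.s d) = c
      · have h3 := (swp_ne N c x0 O γ d hx0 hO).2 h1
        have h4 : swp N c x0 O γ (N.s d) = c := by
          by_contra h5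
          exact (swp_ne N c x0 O γ (N.s d) hx0 hO).1 h5 h2
        rw [h4]; exact h3.symm
      · have o1 : O d = true := by rw [hO]; exact decide_eq_true h1
        have o2 : O (N.s d) = true := by rw [hO]; exact decide_eq_true h2
        have hiff : Conn N.s N.a O x0 (N.s d) ↔ Conn N.s N.a O x0 d := by
          constructor
          · exact hstep _ _ o2 o1 (Or.inr (Or.inr (N.s3 d).symm))
          · exact hstep _ _ o1 o2 (Or.inr (Or.inl rfl))
        unfold swp
        by_cases hc : Conn N.s N.a O x0 d
        · rw [if_pos hc, if_pos (hiff.2 hc)]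
          exact fun h' => hp (third_inj _ _ _ h')
        · rw [if_neg hc, if_neg (fun h' => hc (hiff.1 h'))]
          exact hp

/-- CT-1 -/
theorem tlemma [Finite H] (κ : Fin k → Fin 3) (c : Fin 3) :
    Nat.card {γ : H → Fin 3 // N.Col γ ∧ (∀ j, γ (N.port j) = κ j) ∧
        N.Loopless (fun d => decide (γ d ≠ c))} ≡
      Nat.card {γ : H → Fin 3 // N.Col γ ∧ ∀ j, γ (N.port j) = κ j} [MOD 2] := by
  classical
  have : Fintype H := Fintype.ofFinite H
  let A : Finset (H → Fin 3) := univ.filter fun γ => N.Col γ ∧ ∀ j, γ (N.port j) = κ j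
  let O : (H → Fin 3) → H → Bool := fun γ d => decide (γ d ≠ c)
  let B : Finset (H → Fin 3) := A.filter fun γ => ¬ N.Loopless (O γ)
  let T : (H → Fin 3) → (H → Fin 3) := fun γ =>
    if h : ¬ N.Loopless (O γ) then swp N c (far N (O γ) h) (O γ) γ else γ
  have hOT : ∀ γ, O (T γ) = O γ := by
    intro γ
    simp only [T]
    split_ifs with h
    · rfl
    · funext d
      have := swp_ne N c (far N (O γ) h) (O γ) γ d (far_spec N (O γ) h).1 (fun _ => rfl)
      simp only [O]
      exact decide_eq_decide.2 this
  have hTT : ∀ γ, T (T γ) = γ := by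
    intro γ
    by_cases h : N.Loopless (O γ)
    · have h1 : T γ = γ := by simp only [T]; rw [dif_neg (not_not.2 h)]
      rw [h1, h1]
    · have h1 : T γ = swp N c (far N (O γ) h) (O γ) γ := by simp only [T]; rw [dif_pos h]
      have h2 : ∀ δ, O δ = O γ → T δ = swp N c (far N (O γ) h) (O γ) δ := by
        intro δ hδ
        have h3 : ¬ N.Loopless (O δ) := by rw [hδ]; exact h
        have h4 : T δ = swp N c (far N (O δ) h3) (O δ) δ := by simp only [T]; rw [dif_pos h3]
        rw [h4]
        congr 1
        congr 1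
      rw [h2 (T γ) (hOT γ), h1]
      exact swp_swp N c _ (O γ) γ (far_spec N (O γ) h).1 (fun _ => rfl)
  have hB : B.card % 2 = 0 := by
    refine ct_even_of_invol B T ?_ (fun γ _ => hTT γ) ?_
    · intro γ hγ
      obtain ⟨hA, hL⟩ := Finset.mem_filter.1 hγ
      obtain ⟨_, hcol, hport⟩ := Finset.mem_filter.1 hA
      have h1 : T γ = swp N c (far N (O γ) hL) (O γ) γ := by simp only [T]; rw [dif_pos hL]
      obtain ⟨f1, f2⟩ := far_spec N (O γ) hL
      refine Finset.mem_filter.2 ⟨Finset.mem_filter.2 ⟨mem_univ _, ?_, ?_⟩, ?_⟩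
      · rw [h1]; exact swp_col N c _ (O γ) γ f1 (fun _ => rfl) hcol
      · intro j
        rw [h1, swp_port N c _ (O γ) γ f1 f2 j, hport j]
      · rw [hOT]; exact hL
    · intro γ hγ
      obtain ⟨hA, hL⟩ := Finset.mem_filter.1 hγ
      have h1 : T γ = swp N c (far N (O γ) hL) (O γ) γ := by simp only [T]; rw [dif_pos hL]
      rw [h1]
      exact swp_ne_self N c _ (O γ) γ (far_spec N (O γ) hL).1 (fun _ => rfl)
  have hsplit : (A.filter fun γ => N.Loopless (O γ)).card + B.card = A.card := by
    have h := Finset.card_filter_add_card_filter_not (s := A) (fun γ => N.Loopless (O γ))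
    convert h
  have e1 : Nat.card {γ : H → Fin 3 // N.Col γ ∧ ∀ j, γ (N.port j) = κ j} = A.card := by
    rw [Nat.card_eq_fintype_card, Fintype.card_subtype]
  have e2 : Nat.card {γ : H → Fin 3 // N.Col γ ∧ (∀ j, γ (N.port j) = κ j) ∧
        N.Loopless (fun d => decide (γ d ≠ c))} = (A.filter fun γ => N.Loopless (O γ)).card := by
    rw [Nat.card_eq_fintype_card, Fintype.card_subtype]
    congr 1
    ext γ
    simp only [Finset.mem_filter, Finset.mem_univ, true_and, A, O, and_assoc]
  rw [e1, e2]
  change _ % 2 = _ % 2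
  omega

end

end Pool.Agent.Helper17.CT
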