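import Pool.Agent.Helper17.CT.Defs

set_option autoImplicit false

/-!
# CT-6 col_parity
-/

namespace Pool.Agent.Helper17.CT

open Finset

/-- a set with a fixed point free involution has an even number of elements -/
theorem ct_even_of_invol {T : Type} [DecidableEq T] (A : Finset T) (g : T → T)
    (hg : ∀ x ∈ A, g x ∈ A) (hgg : ∀ x ∈ A, g (g x) = x) (hne : ∀ x ∈ A, g x ≠ x) :
    A.card % 2 = 0 := by
  have h : (∑ _x ∈ A, (1 : ZMod 2)) = 0 :=
    Finset.sum_involution (fun x _ => g x) (fun _ _ => by decide) (fun x hx _ => hne x hx)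
      hg hgg
  rw [Finset.sum_const, nsmul_eq_mul, mul_one] at h
  exact Nat.even_iff.1 ((ZMod.natCast_eq_zero_iff_even).1 h)

/-- In a set closed under a permutation of order three, on the orbits of which the colouring is
proper, every colour occurs on one third of the elements. -/
theorem ct_three_mul {T : Type} [DecidableEq T] (A : Finset T) (s : T → T) (γ : T → Fin 3)
    (hs : ∀ x ∈ A, s x ∈ A) (h3 : ∀ x, s (s (s x)) = x) (hp : ∀ x ∈ A, γ (s x) ≠ γ x)
    (c : Fin 3) : 3 * (A.filter fun x => γ x = c).card = A.card := by
  have hinj : Function.Injective s := fun x y h => by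
    have := congrArg (fun z => s (s z)) h
    simpa only [h3] using this
  have himg : A.image s = A := by
    refine Finset.eq_of_subset_of_card_le ?_ ?_
    · intro x hx
      obtain ⟨y, hy, rfl⟩ := Finset.mem_image.1 hx
      exact hs y hy
    · rw [Finset.card_image_of_injective _ hinj]
  have hsum : ∀ g : T → ℕ, ∑ x ∈ A, g (s x) = ∑ x ∈ A, g x := fun g => by
    conv_rhs => rw [← himg]
    rw [Finset.sum_image (fun x _ y _ h => hinj h)]
  have key : ∀ a b d : Fin 3, b ≠ a → d ≠ b → a ≠ d →
      (if a = c then 1 else 0) + (if b = c then 1 else 0) + (if d = c then 1 else 0) = 1 := by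
    revert c; decide
  have h1 : ∑ x ∈ A, ((if γ x = c then 1 else 0) + (if γ (s x) = c then 1 else 0) +
      (if γ (s (s x)) = c then 1 else 0)) = ∑ x ∈ A, 1 := by
    refine Finset.sum_congr rfl fun x hx => ?_
    refine key _ _ _ (hp x hx) (hp _ (hs x hx)) ?_
    have := hp _ (hs _ (hs x hx))
    rw [h3] at this
    exact this
  rw [Finset.sum_add_distrib, Finset.sum_add_distrib,
    hsum (fun y => if γ (s y) = c then 1 else 0), hsum (fun y => if γ y = c then 1 else 0)] at h1
  simp only [Finset.sum_boole, Finset.sum_const, smul_eq_mul, mul_one, Nat.cast_id] at h1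
  omega

/-- CT-6 -/
theorem col_parity {H : Type} {k : ℕ} (N : Pole H k) [Finite H] (γ : H → Fin 3) (h : N.Col γ)
    (c c' : Fin 3) :
    Nat.card {j : Fin k // γ (N.port j) = c} ≡ Nat.card {j : Fin k // γ (N.port j) = c'}
      [MOD 2] := by
  classical
  have : Fintype H := Fintype.ofFinite H
  -- nonport darts
  let P : Finset H := univ.filter fun d => N.s d ≠ d
  have hsinj : Function.Injective N.s := fun x y h => by
    have := congrArg (fun z => N.s (N.s z)) h
    simpa only [N.s3] using this
  have hP : ∀ c, 3 * (P.filter fun x => γ x = c).card = P.card := by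
    intro c
    refine ct_three_mul P N.s γ ?_ N.s3 ?_ c
    · intro x hx
      have hx' := (Finset.mem_filter.1 hx).2
      exact Finset.mem_filter.2 ⟨mem_univ _, fun h => hx' (hsinj h)⟩
    · intro x hx
      exact h.prop x (Finset.mem_filter.1 hx).2
  have hcol : ∀ c, (univ.filter fun d : H => γ d = c).card % 2 = 0 := by
    intro c
    refine ct_even_of_invol _ N.a ?_ (fun x _ => N.a2 x) (fun x _ => N.a1 x)
    intro x hx
    rw [Finset.mem_filter] at hx ⊢
    exact ⟨mem_univ _, by rw [h.acl]; exact hx.2⟩
  have hport : ∀ c, Nat.card {j : Fin k // γ (N.port j) = c} +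
      (P.filter fun x => γ x = c).card = (univ.filter fun d : H => γ d = c).card := by
    intro c
    rw [Nat.card_eq_fintype_card, Fintype.card_subtype,
      ← Finset.card_image_of_injective _ N.pinj, ← Finset.card_union_of_disjoint]
    · congr 1
      ext d
      simp only [Finset.mem_union, Finset.mem_image, Finset.mem_filter, Finset.mem_univ, true_and,
        P]
      constructor
      · rintro (⟨j, hj, rfl⟩ | ⟨_, h⟩)
        · exact hj
        · exact h
      · intro hd
        by_cases hs : N.s d = d
        · obtain ⟨j, rfl⟩ := (N.piff d).1 hs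
          exact Or.inl ⟨j, hd, rfl⟩
        · exact Or.inr ⟨hs, hd⟩
    · rw [Finset.disjoint_left]
      intro d hd hd'
      obtain ⟨j, _, rfl⟩ := Finset.mem_image.1 hd
      have := (Finset.mem_filter.1 (Finset.mem_filter.1 hd').1).2
      exact this ((N.piff _).2 ⟨j, rfl⟩)
  have e1 := hP c
  have e2 := hP c'
  have e3 := hcol c
  have e4 := hcol c'
  have e5 := hport c
  have e6 := hport c'
  unfold Nat.ModEq
  omega

end Pool.Agent.Helper17.CT
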