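import Pool.Agent.Helper75.CT.Basic

set_option autoImplicit false

/-!
# CT-16a exists_contr: contraction of one side of a 3-edge-cut
-/

namespace Pool.Agent.Helper17.CT

section ret

variable {D : Type} (f : D → D)

/-- first return: if `f` is injective on a finite type, some positive iterate returns -/
private theorem ret_ex [Finite D] (hf : Function.Injective f) (P : D → Prop) (x : D) (hx : P x) :
    ∃ n, 0 < n ∧ P (f^[n] x) := by
  obtain ⟨n, hn, h⟩ := Function.mem_periodicPts.1 (hf.mem_periodicPts x)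
  exact ⟨n, hn, by rw [h]; exact hx⟩

private theorem ret_inj [Finite D] (hf : Function.Injective f) (P : D → Prop)
    (x y : D) (hx : P x) (hy : P y) (n m : ℕ) (hn : 0 < n) (hm : 0 < m)
    (hnx : ∀ i, 0 < i → i < n → ¬ P (f^[i] x)) (hmy : ∀ i, 0 < i → i < m → ¬ P (f^[i] y))
    (h : f^[n] x = f^[m] y) : x = y := by
  rcases le_total n m with hle | hle
  · have h1 : f^[n] x = f^[n] (f^[m - n] y) := by
      rw [← Function.iterate_add_apply, Nat.add_sub_cancel' hle]; exact h
    have h2 := hf.iterate n h1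
    rcases Nat.eq_zero_or_pos (m - n) with h3 | h3
    · rw [h3] at h2; exact h2
    · exact absurd (h2 ▸ hx) (hmy (m - n) h3 (by omega))
  · have h1 : f^[m] y = f^[m] (f^[n - m] x) := by
      rw [← Function.iterate_add_apply, Nat.add_sub_cancel' hle]; exact h.symm
    have h2 := hf.iterate m h1
    rcases Nat.eq_zero_or_pos (n - m) with h3 | h3
    · rw [h3] at h2; exact h2.symm
    · exact absurd (h2 ▸ hy) (hnx (n - m) h3 (by omega))

end ret

variable {D : Type} (M : CMap D)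

private theorem no_face_back (hp : M.Planar) (γ : D → Fin 3) (hT : M.Tri γ) (d : D) (n : ℕ)
    (h : (M.f)^[n] (M.a d) = d) : False := by
  obtain ⟨i, hi⟩ : ∃ i : Fin 3, γ d ≠ i := by
    have : ∀ c : Fin 3, ∃ i : Fin 3, c ≠ i := by decide
    exact this _
  have hE : M.Even (fun d => decide (γ d ≠ i)) := by
    refine ⟨fun d => (hT.ham i).acl d, fun d => ?_⟩
    have := (hT.ham i).one d
    rcases this with ⟨h1, h2, h3⟩ | ⟨h1, h2, h3⟩ | ⟨h1, h2, h3⟩ <;>
      · simp only [h1, h2, h3]; rfl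
  obtain ⟨φ, h1, h2⟩ := hp _ hE
  have h3 : ∀ n x, φ ((M.f)^[n] x) = φ x := by
    intro n
    induction n with
    | zero => intro x; rfl
    | succ n ih => intro x; rw [Function.iterate_succ_apply', h1, ih]
  have h4 := h3 n (M.a d)
  rw [h] at h4
  have h5 := h2 d
  rw [h4] at h5
  simp only [hi, ne_eq, not_false_eq_true, decide_true, bne_self_eq_false] at h5
  simp at h5

/-- CT-16a -/
theorem exists_contr [Finite D] (hp : M.Planar) (γ : D → Fin 3) (hT : M.Tri γ) (X : D → Bool)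
    (hX : M.VSet X) (h3 : M.bd X = 3) (_hY : ∃ d, X d = false) :
    ∃ M' : CMap {d : D // X d = true ∨ X (M.a d) = true}, M.IsContr X M' := by
  classical
  let P : D → Prop := fun d => X d = true ∨ X (M.a d) = true
  -- first return from a star dart
  have hPa : ∀ d, X (M.a d) = true → P (M.a d) := fun d h => Or.inl h
  have hex : ∀ d, X (M.a d) = true → ∃ n, 0 < n ∧ P ((M.f)^[n] (M.a d)) := fun d h =>
    ret_ex M.f M.hf_inj P (M.a d) (hPa d h)
  let S : Type := {d : D // X d = false ∧ X (M.a d) = true}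
  let nn : S → ℕ := fun d => Nat.find (hex d.1 d.2.2)
  have hnn : ∀ d : S, 0 < nn d ∧ P ((M.f)^[nn d] (M.a d.1)) := fun d =>
    Nat.find_spec (hex d.1 d.2.2)
  have hmin : ∀ (d : S) i, 0 < i → i < nn d → ¬ P ((M.f)^[i] (M.a d.1)) := fun d i h0 hi hP =>
    Nat.find_min (hex d.1 d.2.2) hi ⟨h0, hP⟩
  have hfa : ∀ d, M.f (M.a d) = M.s d := fun d => by rw [CMap.f, M.a2]
  have hstar : ∀ d : S, X ((M.f)^[nn d] (M.a d.1)) = false := by
    intro d
    obtain ⟨h0, hP⟩ := hnn d
    obtain ⟨m, hm⟩ : ∃ m, nn d = m + 1 := ⟨nn d - 1, by omega⟩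
    rw [hm, Function.iterate_succ_apply']
    rcases Nat.eq_zero_or_pos m with h | h
    · subst h
      rw [Function.iterate_zero, id, hfa, hX]
      exact d.2.1
    · have h1 := hmin d m h (by omega)
      rw [CMap.f, hX]
      by_contra h2
      exact h1 (Or.inr (by simpa using h2))
  let g : S → S := fun d => ⟨(M.f)^[nn d] (M.a d.1), hstar d, by
    rcases (hnn d).2 with h | h
    · rw [hstar d] at h; cases h
    · exact h⟩
  have hginj : Function.Injective g := by
    intro d e h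
    have h1 : (M.f)^[nn d] (M.a d.1) = (M.f)^[nn e] (M.a e.1) := congrArg Subtype.val h
    have h2 := ret_inj M.f M.hf_inj P (M.a d.1) (M.a e.1) (hPa _ d.2.2) (hPa _ e.2.2) (nn d) (nn e)
      (hnn d).1 (hnn e).1 (hmin d) (hmin e) h1
    exact Subtype.ext (M.ha_inj h2)
  have hgne : ∀ d, g d ≠ d := by
    intro d h
    exact no_face_back M hp γ hT d.1 (nn d) (congrArg Subtype.val h)
  have hcard : Nat.card S = 3 := by
    rw [← h3, CMap.bd]
    refine Nat.card_congr ⟨fun d => ⟨M.a d.1, d.2.2, by rw [M.a2]; exact d.2.1⟩,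
      fun d => ⟨M.a d.1, d.2.2, by rw [M.a2]; exact d.2.1⟩, ?_, ?_⟩
    · intro d; exact Subtype.ext (M.a2 d.1)
    · intro d; exact Subtype.ext (M.a2 d.1)
  obtain ⟨g3, gall⟩ := three_cycle hcard g hginj hgne
  -- the contracted map
  have vS : ∀ {a b : S}, a = b → a.1 = b.1 := fun h => by rw [h]
  have vD : ∀ {a b : {d : D // X d = true ∨ X (M.a d) = true}}, a = b → a.1 = b.1 :=
    fun h => by rw [h]
  have hst : ∀ d : {d : D // X d = true ∨ X (M.a d) = true}, ¬ X d.1 = true →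
      X d.1 = false ∧ X (M.a d.1) = true := fun d h =>
    ⟨by simpa using h, d.2.resolve_left h⟩
  let s' : {d : D // X d = true ∨ X (M.a d) = true} → {d : D // X d = true ∨ X (M.a d) = true} :=
    fun d => if h : X d.1 = true then ⟨M.s d.1, Or.inl (by rw [hX]; exact h)⟩ else
      ⟨(g ⟨d.1, hst d h⟩).1, Or.inr (g ⟨d.1, hst d h⟩).2.2⟩
  have hs1 : ∀ d (h : X d.1 = true), s' d = ⟨M.s d.1, Or.inl (by rw [hX]; exact h)⟩ := by
    intro d h; simp only [s', dif_pos h]
  have hs2 : ∀ (d : S) (hd : X d.1 = true ∨ X (M.a d.1) = true),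
      s' ⟨d.1, hd⟩ = ⟨(g d).1, Or.inr (g d).2.2⟩ := by
    intro d hd
    have h : ¬ X d.1 = true := by rw [d.2.1]; simp
    simp only [s', dif_neg h]
    rfl
  have hs2' : ∀ (d : {d : D // X d = true ∨ X (M.a d) = true}) (h : X d.1 = false ∧ X (M.a d.1) = true),
      s' d = ⟨(g ⟨d.1, h⟩).1, Or.inr (g ⟨d.1, h⟩).2.2⟩ := fun d h => hs2 ⟨d.1, h⟩ d.2
  let M' : CMap {d : D // X d = true ∨ X (M.a d) = true} :=
    { s := s'
      a := fun d => ⟨M.a d.1, by rw [M.a2]; exact d.2.symm⟩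
      s3 := by
        intro d
        by_cases h : X d.1 = true
        · rw [hs1 d h, hs1 ⟨M.s d.1, _⟩ (by rw [hX]; exact h),
            hs1 ⟨M.s (M.s d.1), _⟩ (by rw [hX, hX]; exact h)]
          exact Subtype.ext (M.s3 d.1)
        · rw [hs2' d (hst d h), hs2 (g _), hs2 (g (g _))]
          exact Subtype.ext (vS (g3 ⟨d.1, hst d h⟩))
      s1 := by
        intro d
        by_cases h : X d.1 = true
        · rw [hs1 d h]
          intro h'
          exact M.s1 d.1 (congrArg Subtype.val h')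
        · rw [hs2' d (hst d h)]
          intro h'
          exact hgne ⟨d.1, hst d h⟩ (Subtype.ext (vD h'))
      a2 := fun d => Subtype.ext (M.a2 d.1)
      a1 := fun d h => M.a1 d.1 (congrArg Subtype.val h) }
  refine ⟨M', fun d => rfl, fun d h => ?_, ?_, ?_⟩
  · change (s' d).1 = _
    rw [hs1 d h]
  · intro d d' hd hd'
    have h1 := hst d (by rw [hd]; simp)
    have h2 := hst d' (by rw [hd']; simp)
    have e1 : M'.s d = ⟨(g ⟨d.1, h1⟩).1, Or.inr (g ⟨d.1, h1⟩).2.2⟩ := hs2' d h1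
    have e2 : M'.s (M'.s d) = ⟨(g (g ⟨d.1, h1⟩)).1, Or.inr (g (g ⟨d.1, h1⟩)).2.2⟩ := by
      rw [e1]; exact hs2 (g ⟨d.1, h1⟩) _
    rcases gall ⟨d.1, h1⟩ ⟨d'.1, h2⟩ with h | h | h
    · exact Or.inl (Subtype.ext (vS h))
    · refine Or.inr (Or.inl ?_)
      rw [e1]
      exact Subtype.ext (vS h)
    · refine Or.inr (Or.inr ?_)
      rw [e2]
      exact Subtype.ext (vS h)
  · intro d
    by_cases h : X (M.a d.1) = true
    · refine ⟨1, one_pos, ?_⟩
      change (s' ⟨M.a d.1, _⟩).1 = _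
      rw [hs1 ⟨M.a d.1, _⟩ h]
      rfl
    · have hd : X d.1 = true := d.2.resolve_right h
      have h1 : X (M.a d.1) = false ∧ X (M.a (M.a d.1)) = true :=
        ⟨by simpa using h, by rw [M.a2]; exact hd⟩
      refine ⟨nn ⟨M.a d.1, h1⟩, (hnn _).1, ?_⟩
      change (s' ⟨M.a d.1, _⟩).1 = _
      rw [hs2 ⟨M.a d.1, h1⟩]
      change (M.f)^[nn ⟨M.a d.1, h1⟩] (M.a (M.a d.1)) = _
      rw [M.a2]

end Pool.Agent.Helper17.CT
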