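import Pool.Agent.Helper75.CT.Basic
import Pool.Agent.Helper75.CT.ColParity

set_option autoImplicit false

/-!
# CT-16b contr_planar
-/

namespace Pool.Agent.Helper17.CT

open Finset

variable {D : Type} (M : CMap D)

theorem tri_even (γ : D → Fin 3) (hT : M.Tri γ) (i : Fin 3) :
    M.Even (fun d => decide (γ d ≠ i)) := by
  refine ⟨fun d => (hT.ham i).acl d, fun d => ?_⟩
  have := (hT.ham i).one d
  rcases this with ⟨h1, h2, h3⟩ | ⟨h1, h2, h3⟩ | ⟨h1, h2, h3⟩ <;>
    · simp only [h1, h2, h3]; rfl

/-- a connected dart set that meets `X` and its complement has an edge leaving `X` -/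
theorem exists_cross (X : D → Bool) (hX : M.VSet X) (U : D → Bool) {x y : D}
    (h : Conn M.s M.a U x y) (hx : X x = true) (hy : X y = false) :
    ∃ z, U z = true ∧ X z = true ∧ X (M.a z) = false := by
  induction h with
  | refl => rw [hx] at hy; cases hy
  | @tail b c hb hbc ih =>
    cases hXb : X b with
    | false => exact ih hXb
    | true =>
      obtain ⟨h1, h2, h3⟩ := hbc
      rcases h3 with h3 | h3 | h3
      · exact ⟨b, h1, hXb, by rw [← h3]; exact hy⟩
      · rw [h3, hX, hXb] at hy; cases hy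
      · rw [h3, hX, hX, hXb] at hy; cases hy

/-- A cut with three edges contains exactly one edge of every colour. -/
theorem port_colors [Finite D] (γ : D → Fin 3) (hT : M.Tri γ) (X : D → Bool)
    (hX : M.VSet X) (h3 : M.bd X = 3) (c : Fin 3) :
    ∃ z, X z = true ∧ X (M.a z) = false ∧ γ z = c ∧
      ∀ w, X w = true → X (M.a w) = false → γ w = c → w = z := by
  classical
  have : Fintype D := Fintype.ofFinite D
  let A : Finset D := univ.filter fun d => X d = true
  let L : Finset D := univ.filter fun d => X d = true ∧ X (M.a d) = false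
  have hL : L.card = 3 := by
    rw [← h3, CMap.bd, Nat.card_eq_fintype_card, Fintype.card_subtype]
  have hA : ∀ c, 3 * (A.filter fun x => γ x = c).card = A.card := fun c =>
    ct_three_mul A M.s γ (fun x hx => Finset.mem_filter.2 ⟨mem_univ _, by
      rw [hX]; exact (Finset.mem_filter.1 hx).2⟩) M.s3 (fun x _ => hT.prop x) c
  -- the darts of `X` with colour `c` inside
  have hin : ∀ c, ((A.filter fun x => γ x = c).filter fun x => X (M.a x) = true).card % 2 = 0 := by
    intro c
    refine ct_even_of_invol _ M.a ?_ (fun x _ => M.a2 x) (fun x _ => M.a1 x)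
    intro x hx
    simp only [A, Finset.mem_filter, Finset.mem_univ, true_and] at hx ⊢
    exact ⟨⟨hx.2, by rw [hT.acl]; exact hx.1.2⟩, by rw [M.a2]; exact hx.1.1⟩
  have hsplit : ∀ c, ((A.filter fun x => γ x = c).filter fun x => X (M.a x) = true).card +
      (L.filter fun x => γ x = c).card = (A.filter fun x => γ x = c).card := by
    intro c
    rw [← Finset.card_filter_add_card_filter_not (s := A.filter fun x => γ x = c)
      (fun x => X (M.a x) = true)]
    congr 2
    ext x
    simp only [A, L, Finset.mem_filter, Finset.mem_univ, true_and, Bool.not_eq_true]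
    tauto
  have hsum : ∑ c, (L.filter fun x => γ x = c).card = 3 := by
    exact (Finset.card_eq_sum_card_fiberwise (fun x _ => mem_univ (γ x))).symm.trans hL
  -- every Hamilton cycle crosses
  have hcross : ∀ i, ∃ c, c ≠ i ∧ 0 < (L.filter fun x => γ x = c).card := by
    intro i
    obtain ⟨l, hl⟩ := Finset.card_pos.1 (by omega : 0 < L.card)
    obtain ⟨hl1, hl2⟩ := (Finset.mem_filter.1 hl).2
    have hone := (hT.ham i).one
    have hpick : ∀ d, ∃ e, M.VEq d e ∧ decide (γ e ≠ i) = true := by
      intro d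
      rcases hone d with ⟨h1, h2, h3⟩ | ⟨h1, h2, h3⟩ | ⟨h1, h2, h3⟩
      · exact ⟨_, M.veq_s d, h2⟩
      · exact ⟨_, M.veq_refl d, h1⟩
      · exact ⟨_, M.veq_s d, h2⟩
    obtain ⟨x, hx1, hx2⟩ := hpick l
    obtain ⟨y, hy1, hy2⟩ := hpick (M.a l)
    obtain ⟨z, hz1, hz2, hz3⟩ := exists_cross M X hX _ ((hT.ham i).conn x y hx2 hy2)
      (by rw [M.vset_veq hX hx1]; exact hl1) (by rw [M.vset_veq hX hy1]; exact hl2)
    exact ⟨γ z, of_decide_eq_true hz1, Finset.card_pos.2 ⟨z, Finset.mem_filter.2
      ⟨Finset.mem_filter.2 ⟨mem_univ _, hz2, hz3⟩, rfl⟩⟩⟩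
  rw [Fin.sum_univ_three] at hsum
  have hone : (L.filter fun x => γ x = c).card = 1 := by
    have a0 := hA 0; have a1 := hA 1; have a2 := hA 2
    have b0 := hin 0; have b1 := hin 1; have b2 := hin 2
    have c0 := hsplit 0; have c1 := hsplit 1; have c2 := hsplit 2
    have hn : ∀ i : Fin 3, (L.filter fun x => γ x = i).card ≠ 3 := by
      intro i hi
      obtain ⟨c', hc', hpos⟩ := hcross i
      have key : ∀ (i c' : Fin 3) (u : Fin 3 → ℕ), c' ≠ i → u 0 + u 1 + u 2 = 3 → u i = 3 →
          u c' = 0 := by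
        intro i c' u h1 h2 h3
        fin_cases i <;> fin_cases c' <;> first | exact absurd rfl h1 | (simp at h3 ⊢; omega)
      have := key i c' (fun j => (L.filter fun x => γ x = j).card) hc' hsum hi
      omega
    have n0 := hn 0; have n1 := hn 1; have n2 := hn 2
    fin_cases c
    · change (L.filter fun x => γ x = 0).card = 1; omega
    · change (L.filter fun x => γ x = 1).card = 1; omega
    · change (L.filter fun x => γ x = 2).card = 1; omega
  obtain ⟨z, hz⟩ := Finset.card_eq_one.1 hone
  have hz' : z ∈ L.filter fun x => γ x = c := by rw [hz]; exact Finset.mem_singleton_self z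
  simp only [L, Finset.mem_filter, Finset.mem_univ, true_and] at hz'
  refine ⟨z, hz'.1.1, hz'.1.2, hz'.2, fun w h1 h2 h4 => ?_⟩
  have : w ∈ L.filter fun x => γ x = c := Finset.mem_filter.2
    ⟨Finset.mem_filter.2 ⟨mem_univ _, h1, h2⟩, h4⟩
  rw [hz] at this
  exact Finset.mem_singleton.1 this

/-- CT-16b -/
theorem contr_planar [Finite D] (hp : M.Planar) (γ : D → Fin 3) (hT : M.Tri γ) (X : D → Bool)
    (hX : M.VSet X) (h3 : M.bd X = 3)
    (M' : CMap {d : D // X d = true ∨ X (M.a d) = true}) (h : M.IsContr X M') : M'.Planar := by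
  classical
  intro Z' hZ'
  -- a colour such that the star darts in `Z'` are those of a different colour, or none
  have hpc := port_colors M γ hT X hX h3
  -- star darts
  have hy : ∀ c : Fin 3, ∃ y : {d : D // X d = true ∨ X (M.a d) = true},
      X y.1 = false ∧ X (M.a y.1) = true ∧ γ y.1 = c ∧
        ∀ w : {d : D // X d = true ∨ X (M.a d) = true}, X w.1 = false → γ w.1 = c → w = y := by
    intro c
    obtain ⟨z, h1, h2, h4, h5⟩ := hpc c
    refine ⟨⟨M.a z, Or.inr (by rw [M.a2]; exact h1)⟩, h2, by rw [M.a2]; exact h1,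
      by rw [← h4]; exact hT.acl z, fun w hw hwc => ?_⟩
    have hw2 : X (M.a w.1) = true := w.2.resolve_left (by rw [hw]; simp)
    have := h5 (M.a w.1) hw2 (by rw [M.a2]; exact hw) (by rw [hT.acl]; exact hwc)
    exact Subtype.ext (by
      change w.1 = M.a z
      rw [← this, M.a2])
  choose y hy1 hy2 hy3 hy4 using hy
  have hsum : (Z' (y 0) ^^ Z' (y 1) ^^ Z' (y 2)) = false := by
    have hv := h.star (y 0) (y 1) (hy1 0) (hy1 1)
    have hv2 := h.star (y 0) (y 2) (hy1 0) (hy1 2)
    have hne : ∀ i j : Fin 3, i ≠ j → y i ≠ y j := fun i j hij he => hij (by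
      rw [← hy3 i, ← hy3 j, he])
    have he := hZ'.2 (y 0)
    rcases hv with hv | hv | hv
    · exact absurd hv.symm (hne 0 1 (by decide))
    · rcases hv2 with hv2 | hv2 | hv2
      · exact absurd hv2.symm (hne 0 2 (by decide))
      · exact absurd (hv.trans hv2.symm) (hne 1 2 (by decide))
      · rw [hv, hv2]; exact he
    · rcases hv2 with hv2 | hv2 | hv2
      · exact absurd hv2.symm (hne 0 2 (by decide))
      · rw [hv, hv2]
        rw [← he]
        cases Z' (y 0) <;> cases Z' (M'.s (y 0)) <;> cases Z' (M'.s (M'.s (y 0))) <;> rfl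
      · exact absurd (hv.trans hv2.symm) (hne 1 2 (by decide))
  obtain ⟨E, hE1, hE2⟩ : ∃ E : D → Bool, (∀ d, E (M.a d) = E d ∧
      (E d ^^ E (M.s d) ^^ E (M.s (M.s d))) = false) ∧
      ∀ d : {d : D // X d = true ∨ X (M.a d) = true}, X d.1 = false → Z' d = E d.1 := by
    have hall : ∀ d : {d : D // X d = true ∨ X (M.a d) = true}, X d.1 = false →
        d = y (γ d.1) := fun d hd => hy4 (γ d.1) d hd rfl
    by_cases h0 : Z' (y 0) = false ∧ Z' (y 1) = false ∧ Z' (y 2) = false
    · refine ⟨fun _ => false, fun d => ⟨rfl, rfl⟩, fun d hd => ?_⟩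
      rw [hall d hd]
      have : ∀ c : Fin 3, Z' (y c) = false := by
        intro c
        fin_cases c
        · exact h0.1
        · exact h0.2.1
        · exact h0.2.2
      exact this _
    · obtain ⟨k, hk⟩ : ∃ k : Fin 3, ∀ c, Z' (y c) = decide (c ≠ k) := by
        have key : ∀ z : Fin 3 → Bool, (z 0 ^^ z 1 ^^ z 2) = false →
            ¬ (z 0 = false ∧ z 1 = false ∧ z 2 = false) → ∃ k : Fin 3, ∀ c, z c = decide (c ≠ k) := by
          decide
        exact key (fun c => Z' (y c)) hsum h0
      refine ⟨fun d => decide (γ d ≠ k), fun d => ⟨(tri_even M γ hT k).1 d,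
        (tri_even M γ hT k).2 d⟩, fun d hd => ?_⟩
      rw [hall d hd, hk]
      change _ = decide (γ (y (γ d.1)).1 ≠ k)
      rw [hy3]
  -- the extension
  let Z : D → Bool := fun d => if hd : X d = true ∨ X (M.a d) = true then Z' ⟨d, hd⟩ else E d
  have hZin : ∀ d : {d : D // X d = true ∨ X (M.a d) = true}, Z d.1 = Z' d := by
    intro d
    simp only [Z, dif_pos d.2]
  have hZout : ∀ d, X d = false → Z d = E d := by
    intro d hd
    by_cases h1 : X d = true ∨ X (M.a d) = true
    · rw [← hE2 ⟨d, h1⟩ hd, ← hZin ⟨d, h1⟩]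
    · simp only [Z, dif_neg h1]
  have hZ : M.Even Z := by
    constructor
    · intro d
      by_cases hd : X d = true ∨ X (M.a d) = true
      · have h1 := hZ'.1 ⟨d, hd⟩
        rw [← hZin, ← hZin, h.ha] at h1
        exact h1
      · have h1 : ¬ (X (M.a d) = true ∨ X (M.a (M.a d)) = true) := by
          rw [M.a2]; tauto
        simp only [Z, dif_neg hd, dif_neg h1]
        exact (hE1 d).1
    · intro d
      cases hd : X d with
      | true =>
        have h1 := hZ'.2 ⟨d, Or.inl hd⟩
        have h2 := h.hs ⟨d, Or.inl hd⟩ hd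
        have h4 := h.hs (M'.s ⟨d, Or.inl hd⟩) (by rw [h2, hX]; exact hd)
        rw [h2] at h4
        rw [← hZin, ← hZin, ← hZin, h4, h2] at h1
        exact h1
      | false =>
        rw [hZout d hd, hZout (M.s d) (by rw [hX]; exact hd),
          hZout (M.s (M.s d)) (by rw [hX, hX]; exact hd)]
        exact (hE1 d).2
  obtain ⟨φ, hφ1, hφ2⟩ := hp Z hZ
  have hφn : ∀ n x, φ ((M.f)^[n] x) = φ x := by
    intro n
    induction n with
    | zero => intro x; rfl
    | succ n ih => intro x; rw [Function.iterate_succ_apply', hφ1, ih]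
  refine ⟨fun d => φ d.1, fun d => ?_, fun d => ?_⟩
  · obtain ⟨n, -, hn⟩ := h.ret d
    change φ (M'.f d).1 = φ d.1
    rw [hn, hφn]
  · change Z' d = (φ d.1 ^^ φ (M'.a d).1)
    rw [← hZin, hφ2, h.ha]

end Pool.Agent.Helper17.CT
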