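import Pool.Agent.Helper17.CT.Defs

set_option autoImplicit false

/-!
# Elementary facts on cubic maps
-/

namespace Pool.Agent.Helper17.CT

namespace CMap
variable {D : Type} (M : CMap D)

theorem hs_inj : Function.Injective M.s := fun x y h => by
  have := congrArg (fun z => M.s (M.s z)) h
  simpa only [M.s3] using this

theorem ha_inj : Function.Injective M.a := fun x y h => by
  have := congrArg M.a h
  simpa only [M.a2] using this

theorem hf_inj : Function.Injective M.f := fun _ _ h => M.ha_inj (M.hs_inj h)

theorem hss_ne (d : D) : M.s (M.s d) ≠ d := fun h => M.s1 (M.s d) (by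
  have h1 := M.s3 d
  rw [h] at h1 ⊢
  exact h1.symm)

theorem vset_s {X : D → Bool} (hX : M.VSet X) (d : D) : X (M.s d) = X d := hX d

theorem vset_veq {X : D → Bool} (hX : M.VSet X) {d e : D} (h : M.VEq d e) : X e = X d := by
  rcases h with h | h | h
  · rw [h]
  · rw [h, hX]
  · rw [h, hX, hX]

theorem veq_refl (d : D) : M.VEq d d := Or.inl rfl

theorem veq_symm {d e : D} (h : M.VEq d e) : M.VEq e d := by
  rcases h with h | h | h
  · exact Or.inl h.symm
  · exact Or.inr (Or.inr (by rw [h, M.s3]))
  · exact Or.inr (Or.inl (by rw [h, M.s3]))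

theorem veq_trans {d e g : D} (h : M.VEq d e) (h' : M.VEq e g) : M.VEq d g := by
  rcases h with rfl | rfl | rfl
  · exact h'
  · rcases h' with rfl | rfl | rfl
    · exact Or.inr (Or.inl rfl)
    · exact Or.inr (Or.inr rfl)
    · rw [M.s3]; exact Or.inl rfl
  · rcases h' with rfl | rfl | rfl
    · exact Or.inr (Or.inr rfl)
    · rw [M.s3]; exact Or.inl rfl
    · rw [M.s3]; exact Or.inr (Or.inl rfl)

theorem veq_s (d : D) : M.VEq d (M.s d) := Or.inr (Or.inl rfl)

theorem veq_ss (d : D) : M.VEq d (M.s (M.s d)) := Or.inr (Or.inr rfl)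

theorem period_pos [Finite D] (d : D) : 0 < Function.minimalPeriod M.f d :=
  Function.minimalPeriod_pos_of_mem_periodicPts (M.hf_inj.mem_periodicPts d)

end CMap

/-- On a set of three elements an injective map without fixed points is a 3-cycle. -/
theorem three_cycle {S : Type} (hS : Nat.card S = 3) (g : S → S) (hg : Function.Injective g)
    (h1 : ∀ x, g x ≠ x) : (∀ x, g (g (g x)) = x) ∧ ∀ x y, y = x ∨ y = g x ∨ y = g (g x) := by
  have key : ∀ g : Fin 3 → Fin 3, (∀ x y, g x = g y → x = y) → (∀ x, g x ≠ x) →
      (∀ x, g (g (g x)) = x) ∧ ∀ x y, y = x ∨ y = g x ∨ y = g (g x) := by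
    decide
  have : Finite S := Nat.finite_of_card_ne_zero (by omega)
  let e : S ≃ Fin 3 := Finite.equivFinOfCardEq hS
  obtain ⟨k1, k2⟩ := key (fun i => e (g (e.symm i)))
    (fun x y h => e.symm.injective (hg (e.injective h)))
    (fun x h => h1 (e.symm x) (by
      apply e.injective
      rw [h, e.apply_symm_apply]))
  constructor
  · intro x
    have := k1 (e x)
    simp only [Equiv.symm_apply_apply] at this
    exact e.injective this
  · intro x y
    have := k2 (e x) (e y)
    simp only [Equiv.symm_apply_apply] at this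
    rcases this with h | h | h
    · exact Or.inl (e.injective h)
    · exact Or.inr (Or.inl (e.injective h))
    · exact Or.inr (Or.inr (e.injective h))

end Pool.Agent.Helper17.CT
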