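import Pool.Agent.Helper75.CT.Basic

set_option autoImplicit false

/-!
# CT-16d contr_period, CT-20 face_ge
-/

namespace Pool.Agent.Helper17.CT

variable {D : Type} (M : CMap D)

/-- CT-16d -/
theorem contr_period [Finite D] (X : D → Bool)
    (M' : CMap {d : D // X d = true ∨ X (M.a d) = true}) (h : M.IsContr X M')
    (d : {d : D // X d = true ∨ X (M.a d) = true}) :
    Function.minimalPeriod M'.f d ≤ Function.minimalPeriod M.f d.1 := by
  classical
  have hp := M.period_pos d.1
  have key : ∀ i : ℕ, ∃ n : ℕ, ((M'.f)^[i] d).1 = (M.f)^[n] d.1 := by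
    intro i
    induction i with
    | zero => exact ⟨0, rfl⟩
    | succ i ih =>
      obtain ⟨n, hn⟩ := ih
      obtain ⟨m, -, hm⟩ := h.ret ((M'.f)^[i] d)
      refine ⟨m + n, ?_⟩
      rw [Function.iterate_succ_apply', hm, hn, Function.iterate_add_apply]
  have hsub : (Finset.range (Function.minimalPeriod M'.f d)).image
      (fun i => ((M'.f)^[i] d).1) ⊆
      (Finset.range (Function.minimalPeriod M.f d.1)).image (fun i => (M.f)^[i] d.1) := by
    intro x hx
    obtain ⟨i, -, rfl⟩ := Finset.mem_image.1 hx
    obtain ⟨n, hn⟩ := key i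
    refine Finset.mem_image.2 ⟨n % Function.minimalPeriod M.f d.1,
      Finset.mem_range.2 (Nat.mod_lt _ hp), ?_⟩
    rw [hn, Function.iterate_mod_minimalPeriod_eq]
  have h1 := Finset.card_le_card hsub
  rw [Finset.card_image_of_injOn] at h1
  · refine (by simpa using h1 : _ ≤ Finset.card _).trans ?_
    exact Finset.card_image_le.trans (by simp)
  · intro i hi j hj hij
    have hi' : i ∈ Set.Iio (Function.minimalPeriod M'.f d) := by simpa using hi
    have hj' : j ∈ Set.Iio (Function.minimalPeriod M'.f d) := by simpa using hj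
    exact Function.iterate_injOn_Iio_minimalPeriod hi' hj' (Subtype.ext hij)

/-- CT-20: in a cyclically 4-edge-connected map with more than four vertices all faces have
length at least four. -/
theorem face_ge [Finite D] (hc : M.Con3) (h4 : M.Cyc4) (hD : 12 < Nat.card D) (d : D) :
    4 ≤ Function.minimalPeriod M.f d := by
  classical
  have : Fintype D := Fintype.ofFinite D
  by_contra hlt
  push Not at hlt
  set p := Function.minimalPeriod M.f d with hp
  have hp0 : 0 < p := M.period_pos d
  have hper : (M.f)^[p] d = d := Function.iterate_minimalPeriod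
  -- the vertices of the face
  let X : D → Bool := fun x => decide (∃ i < p, M.VEq ((M.f)^[i] d) x)
  have hX : M.VSet X := by
    intro x
    simp only [X]
    congr 1
    refine propext ⟨?_, ?_⟩
    · rintro ⟨i, hi, h⟩
      exact ⟨i, hi, M.veq_trans h (M.veq_symm (M.veq_s x))⟩
    · rintro ⟨i, hi, h⟩
      exact ⟨i, hi, M.veq_trans h (M.veq_s x)⟩
  have hXd : ∀ i < p, X ((M.f)^[i] d) = true := fun i hi =>
    decide_eq_true ⟨i, hi, M.veq_refl _⟩
  have hfX : ∀ i < p, X (M.a ((M.f)^[i] d)) = true := by
    intro i hi
    rw [← hX]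
    change X (M.f ((M.f)^[i] d)) = true
    rw [← Function.iterate_succ_apply' M.f, Nat.succ_eq_add_one]
    rcases Nat.lt_or_ge (i + 1) p with h | h
    · exact hXd _ h
    · have : i + 1 = p := by omega
      rw [this, hper]
      exact hXd 0 hp0
  have hbX : ∀ i < p, X (M.a (M.s (M.s ((M.f)^[i] d)))) = true := by
    intro i hi
    -- s s (f z) = a z
    have h1 : ∀ z, M.a (M.s (M.s (M.f z))) = z := fun z => by
      rw [CMap.f, M.s3, M.a2]
    rcases Nat.eq_zero_or_pos i with h | h
    · subst h
      have h2 : (M.f)^[0] d = M.f ((M.f)^[p - 1] d) := by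
        rw [← Function.iterate_succ_apply' M.f, Nat.succ_eq_add_one, Nat.sub_add_cancel hp0, hper]; rfl
      rw [h2, h1]
      exact hXd _ (by omega)
    · have h2 : (M.f)^[i] d = M.f ((M.f)^[i - 1] d) := by
        rw [← Function.iterate_succ_apply' M.f, Nat.succ_eq_add_one, Nat.sub_add_cancel h]
      rw [h2, h1]
      exact hXd _ (by omega)
  -- the leaving darts
  have hleave : ∀ x, X x = true → X (M.a x) = false → ∃ i < p, x = M.s ((M.f)^[i] d) := by
    intro x hx hax
    obtain ⟨i, hi, h⟩ := of_decide_eq_true hx
    rcases h with h | h | h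
    · rw [h, hfX i hi] at hax; cases hax
    · exact ⟨i, hi, h⟩
    · rw [h, hbX i hi] at hax; cases hax
  have hbd : M.bd X ≤ p := by
    rw [CMap.bd, Nat.card_eq_fintype_card, Fintype.card_subtype]
    calc (Finset.univ.filter fun x => X x = true ∧ X (M.a x) = false).card
        ≤ ((Finset.range p).image fun i => M.s ((M.f)^[i] d)).card := by
          refine Finset.card_le_card fun x hx => ?_
          rw [Finset.mem_filter] at hx
          obtain ⟨i, hi, h⟩ := hleave x hx.2.1 hx.2.2
          exact Finset.mem_image.2 ⟨i, Finset.mem_range.2 hi, h.symm⟩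
      _ ≤ p := Finset.card_image_le.trans (by simp)
  have hcardX : (Finset.univ.filter fun x => X x = true).card ≤ 3 * p := by
    have hsub : (Finset.univ.filter fun x => X x = true) ⊆ (Finset.range p).biUnion
        (fun i => {(M.f)^[i] d, M.s ((M.f)^[i] d), M.s (M.s ((M.f)^[i] d))}) := by
      intro x hx
      rw [Finset.mem_filter] at hx
      obtain ⟨i, hi, h⟩ := of_decide_eq_true hx.2
      refine Finset.mem_biUnion.2 ⟨i, Finset.mem_range.2 hi, ?_⟩
      rcases h with h | h | h <;> simp [h]
    refine (Finset.card_le_card hsub).trans (Finset.card_biUnion_le.trans ?_)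
    calc ∑ i ∈ Finset.range p, _ ≤ ∑ i ∈ Finset.range p, 3 :=
          Finset.sum_le_sum fun i _ => Finset.card_le_three
      _ = 3 * p := by simp [mul_comm]
  have hcardD : (Finset.univ.filter fun x => X x = true).card +
      (Finset.univ.filter fun x => X x = false).card = Nat.card D := by
    rw [Nat.card_eq_fintype_card, ← Finset.card_univ,
      ← Finset.card_filter_add_card_filter_not (s := (Finset.univ : Finset D))
        (fun x => X x = true)]
    simp
  have hcompl : 3 < (Finset.univ.filter fun x => X x = false).card := by omega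
  have hex : ∃ x, X x = false := by
    obtain ⟨x, hx⟩ := Finset.card_pos.1 (by omega : 0 < (Finset.univ.filter fun x => X x = false).card)
    exact ⟨x, (Finset.mem_filter.1 hx).2⟩
  have h3 := hc X hX ⟨d, hXd 0 hp0⟩ hex
  have hp3 : p = 3 := by omega
  rcases h4 X hX (by omega) with ⟨v, hv⟩ | ⟨v, hv⟩
  · -- all darts of X at one vertex
    have hinj : ∀ i < 3, ∀ j < 3, (M.f)^[i] d = (M.f)^[j] d → i = j := fun i hi j hj h =>
      Function.iterate_injOn_Iio_minimalPeriod (f := M.f) (x := d)
        (by rw [Set.mem_Iio, ← hp]; omega) (by rw [Set.mem_Iio, ← hp]; omega) h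
    have hd : ∀ i < 3, (M.f)^[i] d = v ∨ (M.f)^[i] d = M.s v ∨ (M.f)^[i] d = M.s (M.s v) :=
      fun i hi => hv _ (hXd i (by omega))
    have hall : ∀ x, X x = true → ∃ i < p, x = (M.f)^[i] d := by
      intro x hx
      have hsub : (Finset.range 3).image (fun i => (M.f)^[i] d) ⊆ {v, M.s v, M.s (M.s v)} := by
        intro y hy
        obtain ⟨i, hi, rfl⟩ := Finset.mem_image.1 hy
        rcases hd i (Finset.mem_range.1 hi) with h | h | h <;> simp [h]
      have hc3 : ((Finset.range 3).image (fun i => (M.f)^[i] d)).card = 3 := by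
        rw [Finset.card_image_of_injOn]
        · simp
        · intro i hi j hj h
          exact hinj i (by simpa using hi) j (by simpa using hj) h
      have heq := Finset.eq_of_subset_of_card_le hsub (by rw [hc3]; exact Finset.card_le_three)
      have hx' : x ∈ ({v, M.s v, M.s (M.s v)} : Finset D) := by
        rcases hv x hx with h | h | h <;> simp [h]
      rw [← heq] at hx'
      obtain ⟨i, hi, h⟩ := Finset.mem_image.1 hx'
      exact ⟨i, by rw [hp3]; exact Finset.mem_range.1 hi, h.symm⟩
    have h0 : M.bd X = 0 := by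
      rw [CMap.bd]
      have : IsEmpty {x : D // X x = true ∧ X (M.a x) = false} := ⟨fun x => by
        obtain ⟨i, hi, h⟩ := hall x.1 x.2.1
        have := x.2.2
        rw [h, hfX i hi] at this
        cases this⟩
      exact Nat.card_of_isEmpty
    omega
  · have : (Finset.univ.filter fun x => X x = false) ⊆ {v, M.s v, M.s (M.s v)} := by
      intro x hx
      rcases hv x (Finset.mem_filter.1 hx).2 with h | h | h <;> simp [h]
    have := (Finset.card_le_card this).trans Finset.card_le_three
    omega

end Pool.Agent.Helper17.CT
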